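import Mathlib

/-!
The standard Hopf algebra structure on the universal enveloping algebra of a Lie algebra:
every element of the Lie algebra is primitive.
-/

set_option autoImplicit false

namespace Pool.Agent.Lib.MP_f83094_an

open scoped TensorProduct
open UniversalEnvelopingAlgebra

attribute [local instance 100] LieRing.ofAssociativeRing

variable (R : Type) [CommRing R] (L : Type) [LieRing L] [LieAlgebra R L]

/-- The Lie morphism `x ↦ x ⊗ 1 + 1 ⊗ x`. -/
noncomputable def comulLie :
    L →ₗ⁅R⁆ (UniversalEnvelopingAlgebra R L ⊗[R] UniversalEnvelopingAlgebra R L) where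
  toFun x := ι R x ⊗ₜ[R] 1 + 1 ⊗ₜ[R] ι R x
  map_add' x y := by
    simp only [map_add, TensorProduct.add_tmul, TensorProduct.tmul_add]; abel
  map_smul' c x := by
    simp only [map_smul, TensorProduct.smul_tmul', TensorProduct.tmul_smul, RingHom.id_apply,
      smul_add]
  map_lie' {x y} := by
    simp only [LieHom.map_lie, LieRing.of_associative_ring_bracket, add_mul, mul_add,
      Algebra.TensorProduct.tmul_mul_tmul, mul_one, one_mul, TensorProduct.sub_tmul,
      TensorProduct.tmul_sub]
    abel

/-- The Lie morphism `x ↦ - x` into the opposite algebra. -/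
noncomputable def antipodeLie :
    L →ₗ⁅R⁆ (UniversalEnvelopingAlgebra R L)ᵐᵒᵖ where
  toFun x := MulOpposite.op (- ι R x)
  map_add' x y := by
    simp only [map_add, neg_add, MulOpposite.op_add]
  map_smul' c x := by
    simp only [map_smul, RingHom.id_apply, ← smul_neg, MulOpposite.op_smul]
  map_lie' {x y} := by
    simp only [LieHom.map_lie, LieRing.of_associative_ring_bracket, ← MulOpposite.op_mul,
      ← MulOpposite.op_sub, neg_mul_neg, neg_sub]

noncomputable def comulAlg : UniversalEnvelopingAlgebra R L →ₐ[R]
    (UniversalEnvelopingAlgebra R L ⊗[R] UniversalEnvelopingAlgebra R L) :=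
  lift R (comulLie R L)

noncomputable def counitAlg : UniversalEnvelopingAlgebra R L →ₐ[R] R :=
  lift R (0 : L →ₗ⁅R⁆ R)

noncomputable def antipodeAlg : UniversalEnvelopingAlgebra R L →ₐ[R]
    (UniversalEnvelopingAlgebra R L)ᵐᵒᵖ :=
  lift R (antipodeLie R L)

theorem comulAlg_ι (x : L) :
    comulAlg R L (ι R x) = ι R x ⊗ₜ[R] 1 + 1 ⊗ₜ[R] ι R x := lift_ι_apply R _ x

theorem counitAlg_ι (x : L) : counitAlg R L (ι R x) = 0 := lift_ι_apply R _ x

theorem antipodeAlg_ι (x : L) : antipodeAlg R L (ι R x) = MulOpposite.op (- ι R x) :=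
  lift_ι_apply R _ x

theorem hom_ext' {A : Type} [Ring A] [Algebra R A]
    {g₁ g₂ : UniversalEnvelopingAlgebra R L →ₐ[R] A} (h : ∀ x : L, g₁ (ι R x) = g₂ (ι R x)) :
    g₁ = g₂ := by
  apply hom_ext
  ext x
  exact h x

theorem adjoin_range_ι :
    Algebra.adjoin R (Set.range (ι R : L → UniversalEnvelopingAlgebra R L)) = ⊤ := by
  set S := Algebra.adjoin R (Set.range (ι R : L → UniversalEnvelopingAlgebra R L)) with hS
  let f : L →ₗ⁅R⁆ S :=
    { toFun := fun x => ⟨ι R x, Algebra.subset_adjoin ⟨x, rfl⟩⟩
      map_add' := fun x y => Subtype.ext (map_add _ x y)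
      map_smul' := fun c x => Subtype.ext (map_smul _ c x)
      map_lie' := fun {x y} => Subtype.ext (by
        simp only [LieHom.map_lie, LieRing.of_associative_ring_bracket]; rfl) }
  have h : S.val.comp (lift R f) = AlgHom.id R _ := by
    apply hom_ext'
    intro x
    simp only [AlgHom.comp_apply, lift_ι_apply, AlgHom.id_apply]
    rfl
  rw [eq_top_iff]
  intro u _
  have := congr($h u)
  simp only [AlgHom.comp_apply, AlgHom.id_apply] at this
  rw [← this]
  exact (lift R f u).2

noncomputable abbrev bialg : Bialgebra R (UniversalEnvelopingAlgebra R L) :=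
  Bialgebra.ofAlgHom (comulAlg R L) (counitAlg R L)
    (by
      apply hom_ext'
      intro x
      simp only [AlgHom.comp_apply, comulAlg_ι, map_add, Algebra.TensorProduct.map_tmul, map_one,
        AlgHom.id_apply, Algebra.TensorProduct.one_def, TensorProduct.add_tmul,
        TensorProduct.tmul_add]
      abel)
    (by
      apply hom_ext'
      intro x
      simp [comulAlg_ι, counitAlg_ι, -ι_apply])
    (by
      apply hom_ext'
      intro x
      simp [comulAlg_ι, counitAlg_ι, -ι_apply])

/-- The antipode as a linear map. -/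
noncomputable def antipodeLin :
    UniversalEnvelopingAlgebra R L →ₗ[R] UniversalEnvelopingAlgebra R L :=
  (MulOpposite.opLinearEquiv R).symm.toLinearMap ∘ₗ (antipodeAlg R L).toLinearMap

theorem antipodeLin_apply (u : UniversalEnvelopingAlgebra R L) :
    antipodeLin R L u = (antipodeAlg R L u).unop := rfl

theorem antipodeLin_mul (u v : UniversalEnvelopingAlgebra R L) :
    antipodeLin R L (u * v) = antipodeLin R L v * antipodeLin R L u := by
  simp only [antipodeLin_apply, map_mul, MulOpposite.unop_mul]

theorem antipodeLin_one : antipodeLin R L 1 = 1 := by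
  simp only [antipodeLin_apply, map_one, MulOpposite.unop_one]

theorem antipodeLin_ι (x : L) : antipodeLin R L (ι R x) = - ι R x := by
  simp only [antipodeLin_apply, antipodeAlg_ι, MulOpposite.unop_op]

theorem induction_left {P : UniversalEnvelopingAlgebra R L → Prop}
    (h1 : P 1) (hadd : ∀ u v, P u → P v → P (u + v)) (hsmul : ∀ (c : R) u, P u → P (c • u))
    (hmul : ∀ (x : L) u, P u → P (ι R x * u)) (u : UniversalEnvelopingAlgebra R L) : P u := by
  have key : ∀ v ∈ Algebra.adjoin R (Set.range (ι R : L → UniversalEnvelopingAlgebra R L)),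
      ∀ u, P u → P (v * u) := by
    intro v hv
    induction hv using Algebra.adjoin_induction with
    | mem x hx =>
      obtain ⟨x, rfl⟩ := hx
      exact hmul x
    | algebraMap r =>
      intro u hu
      rw [← Algebra.smul_def]
      exact hsmul r u hu
    | add x y _ _ hx hy =>
      intro u hu
      rw [add_mul]
      exact hadd _ _ (hx u hu) (hy u hu)
    | mul x y _ _ hx hy =>
      intro u hu
      rw [mul_assoc]
      exact hx _ (hy u hu)
  have := key u (by rw [adjoin_range_ι]; trivial) 1 h1
  rwa [mul_one] at this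

theorem rTensor_aux (x : L)
    (t : UniversalEnvelopingAlgebra R L ⊗[R] UniversalEnvelopingAlgebra R L) :
    LinearMap.mul' R _ ((antipodeLin R L).rTensor _
      ((ι R x ⊗ₜ[R] 1 + 1 ⊗ₜ[R] ι R x) * t)) = 0 := by
  induction t using TensorProduct.induction_on with
  | zero => simp only [mul_zero, map_zero]
  | tmul a b =>
    simp only [add_mul, Algebra.TensorProduct.tmul_mul_tmul, one_mul, map_add,
      LinearMap.rTensor_tmul, LinearMap.mul'_apply, antipodeLin_mul, antipodeLin_ι, mul_neg,
      neg_mul, mul_assoc, neg_add_cancel]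
  | add s t hs ht => rw [mul_add, map_add, map_add, hs, ht, add_zero]

theorem lTensor_aux (x : L)
    (t : UniversalEnvelopingAlgebra R L ⊗[R] UniversalEnvelopingAlgebra R L) :
    LinearMap.mul' R _ ((antipodeLin R L).lTensor _
      ((ι R x ⊗ₜ[R] 1 + 1 ⊗ₜ[R] ι R x) * t)) =
      ι R x * LinearMap.mul' R _ ((antipodeLin R L).lTensor _ t) -
        LinearMap.mul' R _ ((antipodeLin R L).lTensor _ t) * ι R x := by
  induction t using TensorProduct.induction_on with
  | zero => simp only [mul_zero, map_zero, zero_mul, sub_zero]
  | tmul a b =>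
    simp only [add_mul, Algebra.TensorProduct.tmul_mul_tmul, one_mul, map_add,
      LinearMap.lTensor_tmul, LinearMap.mul'_apply, antipodeLin_mul, antipodeLin_ι, mul_neg,
      mul_assoc, sub_eq_add_neg]
  | add s t hs ht =>
    rw [mul_add, map_add, map_add, hs, ht, map_add, map_add, mul_add, add_mul]; abel

theorem mul_rTensor (u : UniversalEnvelopingAlgebra R L) :
    LinearMap.mul' R _ ((antipodeLin R L).rTensor _ (comulAlg R L u)) =
      algebraMap R _ (counitAlg R L u) := by
  induction u using induction_left with
  | h1 =>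
    simp only [map_one, Algebra.TensorProduct.one_def, LinearMap.rTensor_tmul,
      LinearMap.mul'_apply, antipodeLin_one, mul_one]
  | hadd u v hu hv => simp only [map_add, hu, hv]
  | hsmul c u hu =>
    rw [map_smul, map_smul, map_smul, hu, map_smul, smul_eq_mul, map_mul, Algebra.smul_def]
  | hmul x u hu =>
    rw [map_mul, comulAlg_ι, rTensor_aux, map_mul, counitAlg_ι, zero_mul, map_zero]

theorem mul_lTensor (u : UniversalEnvelopingAlgebra R L) :
    LinearMap.mul' R _ ((antipodeLin R L).lTensor _ (comulAlg R L u)) =
      algebraMap R _ (counitAlg R L u) := by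
  induction u using induction_left with
  | h1 =>
    simp only [map_one, Algebra.TensorProduct.one_def, LinearMap.lTensor_tmul,
      LinearMap.mul'_apply, antipodeLin_one, mul_one]
  | hadd u v hu hv => simp only [map_add, hu, hv]
  | hsmul c u hu =>
    rw [map_smul, map_smul, map_smul, hu, map_smul, smul_eq_mul, map_mul, Algebra.smul_def]
  | hmul x u hu =>
    rw [map_mul, comulAlg_ι, lTensor_aux, hu, map_mul, counitAlg_ι, zero_mul, map_zero,
      Algebra.commutes, sub_self]

/-- The Hopf algebra structure on the universal enveloping algebra. -/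
noncomputable abbrev hopf : HopfAlgebra R (UniversalEnvelopingAlgebra R L) :=
  letI := bialg R L
  { antipode := antipodeLin R L
    mul_antipode_rTensor_comul := LinearMap.ext fun u => mul_rTensor R L u
    mul_antipode_lTensor_comul := LinearMap.ext fun u => mul_lTensor R L u }

end Pool.Agent.Lib.MP_f83094_an
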