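import Mathlib

/-!
A Hilbert basis theorem for rings generated by a noetherian ring `A` and one element whose
commutator with `A` lies in `A`.
-/

set_option autoImplicit false

namespace Pool.Agent.Lib.MP_f83094_an

variable {A R : Type} [Ring A] [Ring R] (φ : A →+* R) (x : R)

/-- Elements of degree less than `n`. -/
def Deg : ℕ → R → Prop
  | 0, r => r = 0
  | n + 1, r => ∃ a f, Deg n f ∧ r = φ a * x ^ n + f

variable {φ x}

theorem Deg.zero : ∀ n, Deg φ x n 0
  | 0 => rfl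
  | n + 1 => ⟨0, 0, Deg.zero n, by simp⟩

theorem Deg.add : ∀ {n : ℕ} {r s : R}, Deg φ x n r → Deg φ x n s → Deg φ x n (r + s)
  | 0, r, s, hr, hs => by
    have hr' : r = 0 := hr
    have hs' : s = 0 := hs
    change r + s = 0
    rw [hr', hs', add_zero]
  | n + 1, _, _, ⟨a, f, hf, rfl⟩, ⟨b, g, hg, rfl⟩ =>
    ⟨a + b, f + g, hf.add hg, by rw [map_add, add_mul]; abel⟩

theorem Deg.mul (c : A) : ∀ {n : ℕ} {r : R}, Deg φ x n r → Deg φ x n (φ c * r)
  | 0, r, hr => by
    have hr' : r = 0 := hr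
    change φ c * r = 0
    rw [hr', mul_zero]
  | n + 1, _, ⟨a, f, hf, rfl⟩ =>
    ⟨c * a, φ c * f, hf.mul c, by rw [map_mul, mul_add, mul_assoc]⟩

theorem Deg.neg {n : ℕ} {r : R} (h : Deg φ x n r) : Deg φ x n (-r) := by
  simpa using h.mul (-1)

theorem Deg.succ {n : ℕ} {r : R} (h : Deg φ x n r) : Deg φ x (n + 1) r :=
  ⟨0, r, h, by simp⟩

theorem Deg.mono {m n : ℕ} (hmn : m ≤ n) {r : R} (h : Deg φ x m r) : Deg φ x n r := by
  induction hmn with
  | refl => exact h
  | step _ ih => exact ih.succ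

theorem Deg.xmul (hx : ∀ a, ∃ b, x * φ a = φ a * x + φ b) :
    ∀ {n : ℕ} {r : R}, Deg φ x n r → Deg φ x (n + 1) (x * r)
  | 0, r, hr => by
    have hr' : r = 0 := hr
    rw [hr', mul_zero]
    exact Deg.zero _
  | n + 1, _, ⟨a, f, hf, rfl⟩ => by
    obtain ⟨b, hb⟩ := hx a
    refine ⟨a, (φ b * x ^ n + 0) + x * f, Deg.add ⟨b, 0, Deg.zero n, rfl⟩ (hf.xmul hx), ?_⟩
    rw [mul_add, ← mul_assoc, hb, add_mul, pow_succ', mul_assoc, add_zero, add_assoc]

theorem exists_deg (hx : ∀ a, ∃ b, x * φ a = φ a * x + φ b)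
    (hg : ∀ r, r ∈ Subring.closure (insert x (Set.range φ))) (r : R) : ∃ n, Deg φ x n r := by
  have key : ∀ y, (∃ n, Deg φ x n y) → ∃ n, Deg φ x n (r * y) := by
    induction hg r using Subring.closure_induction with
    | mem z hz =>
      rintro y ⟨n, hy⟩
      rcases hz with rfl | ⟨a, rfl⟩
      · exact ⟨_, hy.xmul hx⟩
      · exact ⟨_, hy.mul a⟩
    | zero => exact fun y _ => ⟨0, zero_mul y⟩
    | one => exact fun y hy => by rwa [one_mul]
    | add u v _ _ hu hv =>
      intro y hy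
      obtain ⟨m, hm⟩ := hu y hy
      obtain ⟨n, hn⟩ := hv y hy
      exact ⟨max m n, add_mul u v y ▸ (hm.mono (le_max_left _ _)).add (hn.mono (le_max_right _ _))⟩
    | neg u _ hu =>
      intro y hy
      obtain ⟨m, hm⟩ := hu y hy
      exact ⟨m, neg_mul u y ▸ hm.neg⟩
    | mul u v _ _ hu hv => exact fun y hy => mul_assoc u v y ▸ hu _ (hv y hy)
  simpa using key 1 ⟨1, 1, 0, rfl, by simp⟩

variable (φ x) in
/-- Leading coefficients in degree `n` of a left ideal. -/
def lead (I : Ideal R) (n : ℕ) : Ideal A where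
  carrier := {a | ∃ f, Deg φ x n f ∧ φ a * x ^ n + f ∈ I}
  zero_mem' := ⟨0, Deg.zero n, by simp⟩
  add_mem' := by
    rintro a b ⟨f, hf, ha⟩ ⟨g, hg, hb⟩
    refine ⟨f + g, hf.add hg, ?_⟩
    convert I.add_mem ha hb using 1
    rw [map_add, add_mul]
    abel
  smul_mem' := by
    rintro c a ⟨f, hf, ha⟩
    refine ⟨φ c * f, hf.mul c, ?_⟩
    convert I.mul_mem_left (φ c) ha using 1
    rw [smul_eq_mul, map_mul, mul_add, mul_assoc]

theorem lead_mono (hx : ∀ a, ∃ b, x * φ a = φ a * x + φ b) {I J : Ideal R} (h : I ≤ J) {m n : ℕ}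
    (hmn : m ≤ n) : lead φ x I m ≤ lead φ x J n := by
  induction hmn with
  | refl => exact fun a ⟨f, hf, ha⟩ => ⟨f, hf, h ha⟩
  | @step n _ ih =>
    intro a ha
    obtain ⟨f, hf, ha⟩ := ih ha
    obtain ⟨b, hb⟩ := hx a
    refine ⟨(φ b * x ^ n + 0) + x * f, Deg.add ⟨b, 0, Deg.zero n, rfl⟩ (hf.xmul hx), ?_⟩
    convert J.mul_mem_left x ha using 1
    rw [mul_add, ← mul_assoc, hb, add_mul, pow_succ', mul_assoc, add_zero, add_assoc]

theorem mem_of_lead {I J : Ideal R} (h : I ≤ J) (hl : ∀ n, lead φ x J n ≤ lead φ x I n) :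
    ∀ (n : ℕ) (r : R), Deg φ x n r → r ∈ J → r ∈ I
  | 0, r, hr, _ => by
    have hr' : r = 0 := hr
    rw [hr']
    exact I.zero_mem
  | n + 1, _, ⟨a, f, hf, rfl⟩, hr => by
    obtain ⟨g, hg, ha⟩ := hl n ⟨f, hf, hr⟩
    have h1 : f + -g ∈ J := by
      convert J.sub_mem hr (h ha) using 1
      abel
    convert I.add_mem ha (mem_of_lead h hl n _ (hf.add hg.neg) h1) using 1
    abel

theorem noeth_of_deriv [IsNoetherianRing A] (hx : ∀ a, ∃ b, x * φ a = φ a * x + φ b)
    (hg : ∀ r, r ∈ Subring.closure (insert x (Set.range φ))) : IsNoetherianRing R := by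
  refine monotone_stabilizes_iff_noetherian.1 fun I => ?_
  have hA := monotone_stabilizes_iff_noetherian.2 (inferInstance : IsNoetherian A A)
  obtain ⟨N, hN⟩ := hA ⟨fun k => lead φ x (I k) k, fun k l h => lead_mono hx (I.monotone h) h⟩
  choose K hK using fun n => hA
    ⟨fun k => lead φ x (I k) n, fun k l h => lead_mono hx (I.monotone h) le_rfl⟩
  refine ⟨max N ((Finset.range N).sup K), fun m hm => le_antisymm (I.monotone hm) fun r hr => ?_⟩
  obtain ⟨d, hd⟩ := exists_deg hx hg r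
  refine mem_of_lead (I.monotone hm) (fun n => ?_) d r hd hr
  by_cases hn : n < N
  · have h1 : K n ≤ max N ((Finset.range N).sup K) :=
      (Finset.le_sup (f := K) (Finset.mem_range.2 hn)).trans (le_max_right _ _)
    exact ((hK n m (h1.trans hm)).symm.trans (hK n _ h1)).le
  · have h1 := hN (max m n) ((not_lt.1 hn).trans (le_max_right _ _))
    exact (lead_mono hx (I.monotone (le_max_left m n)) (le_max_right m n)).trans
      (h1.symm.le.trans (lead_mono hx (I.monotone (le_max_left _ _)) (not_lt.1 hn)))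

end Pool.Agent.Lib.MP_f83094_an
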