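import Pool.Agent.Lib.MP_f83094_an.Shift

/-!
The Hopf algebra `Sh` is noetherian on both sides, has quadratic growth, and every
submultiplicative seminorm vanishes on `1 - s`.
-/

set_option autoImplicit false

namespace Pool.Agent.Lib.MP_f83094_an

theorem finiteType_sh : Algebra.FiniteType ℂ Sh := .of_surjective shMk shMk_surj

/-- The commutative subalgebra generated by the grouplike elements. -/
noncomputable def grp : Subalgebra ℂ Sh := Algebra.adjoin ℂ {gen 1, gen 2, gen 3}

theorem mem_grp1 : gen 1 ∈ grp := Algebra.subset_adjoin (by simp)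
theorem mem_grp2 : gen 2 ∈ grp := Algebra.subset_adjoin (by simp)
theorem mem_grp3 : gen 3 ∈ grp := Algebra.subset_adjoin (by simp)

theorem noeth_adjoin {B : Type} [Ring B] [Algebra ℂ B] {s : Set B} (hs : s.Finite)
    (hc : ∀ a ∈ s, ∀ b ∈ s, a * b = b * a) : IsNoetherianRing (Algebra.adjoin ℂ s) := by
  have h1 : Algebra.FiniteType ℂ (Algebra.adjoin ℂ s) :=
    ⟨(Subalgebra.fg_top _).2 ⟨hs.toFinset, by rw [hs.coe_toFinset]⟩⟩
  have h2 := Algebra.isMulCommutative_adjoin ℂ hc
  let _ : CommRing (Algebra.adjoin ℂ s) :=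
    { (inferInstance : Ring (Algebra.adjoin ℂ s)) with mul_comm := h2.is_comm.comm }
  exact Algebra.FiniteType.isNoetherianRing ℂ _

theorem noeth_grp : IsNoetherianRing grp := by
  refine noeth_adjoin (Set.toFinite _) ?_
  have h1 := rels.sg
  have h2 := rels.sh
  have h3 := rels.gh.trans rels.hg.symm
  rintro a (rfl | rfl | rfl) b (rfl | rfl | rfl)
  exacts [rfl, h1, h2, h1.symm, rfl, h3, h2.symm, h3.symm, rfl]

theorem comm_mem_grp {a : Sh} (ha : a ∈ grp) : gen 0 * a - a * gen 0 ∈ grp := by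
  induction ha using Algebra.adjoin_induction with
  | mem a ha =>
    rcases ha with rfl | rfl | rfl
    · rw [rels.sx, sub_self]
      exact zero_mem _
    · rw [rels.gx, sub_add_cancel_left]
      exact neg_mem (mul_mem (sub_mem (one_mem _) mem_grp1) mem_grp2)
    · rw [rels.xh, add_sub_cancel_left]
      exact mul_mem (sub_mem (one_mem _) mem_grp1) mem_grp3
  | algebraMap c =>
    rw [Algebra.commutes, sub_self]
    exact zero_mem _
  | add a b _ _ h1 h2 =>
    convert add_mem h1 h2 using 1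
    noncomm_ring
  | mul a b ha hb h1 h2 =>
    convert add_mem (mul_mem h1 hb) (mul_mem ha h2) using 1
    noncomm_ring

theorem noeth_sh : IsNoetherianRing Sh := by
  have := noeth_grp
  refine noeth_of_deriv (φ := grp.val.toRingHom) (x := gen 0)
    (fun a => ⟨⟨_, comm_mem_grp a.2⟩, (add_sub_cancel _ _).symm⟩) fun r => ?_
  induction r using sh_induction with
  | hc c => exact Subring.subset_closure (Or.inr ⟨⟨_, algebraMap_mem _ c⟩, rfl⟩)
  | hg i =>
    fin_cases i
    exacts [Subring.subset_closure (Or.inl rfl), Subring.subset_closure (Or.inr ⟨⟨_, mem_grp1⟩, rfl⟩),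
      Subring.subset_closure (Or.inr ⟨⟨_, mem_grp2⟩, rfl⟩),
      Subring.subset_closure (Or.inr ⟨⟨_, mem_grp3⟩, rfl⟩)]
  | hm u v h1 h2 => exact mul_mem h1 h2
  | ha u v h1 h2 => exact add_mem h1 h2

theorem anti_anti (u : Sh) : anti (anti u) = u := by
  induction u using sh_induction with
  | hc c => rw [anti_alg, anti_alg]
  | hg i =>
    fin_cases i
    · change anti (anti (gen 0)) = gen 0
      rw [anti0, map_neg, anti_mul, anti0, anti1, neg_mul, neg_neg, rels.sx, mul_assoc, rels.ss,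
        mul_one]
    all_goals simp [anti1, anti2, anti3]
  | hm u v h1 h2 => rw [anti_mul, anti_mul, h1, h2]
  | ha u v h1 h2 => rw [map_add, map_add, h1, h2]

theorem noeth_sh_op : IsNoetherianRing Shᵐᵒᵖ := by
  have := noeth_sh
  exact isNoetherianRing_of_surjective Sh _ (shLift rels_anti).toRingHom fun u =>
    ⟨anti u.unop, MulOpposite.unop_injective (anti_anti u.unop)⟩

/-- A representation with `s = -1`. -/
theorem rels_rep : Rels (B := Module.End ℂ (ℤ → ℂ))
    ![LinearMap.mulLeft ℂ fun n : ℤ => 2 * (n : ℂ), -1,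
      LinearMap.funLeft ℂ ℂ fun n : ℤ => n + 1, LinearMap.funLeft ℂ ℂ fun n : ℤ => n - 1] where
  ss := LinearMap.ext fun f => funext fun n => by simp
  gh := LinearMap.ext fun f => funext fun n => by simp [LinearMap.funLeft_apply]
  hg := LinearMap.ext fun f => funext fun n => by simp [LinearMap.funLeft_apply]
  sg := LinearMap.ext fun f => funext fun n => by simp [LinearMap.funLeft_apply]
  sx := LinearMap.ext fun f => funext fun n => by simp
  gx := LinearMap.ext fun f => funext fun n => by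
    simp [LinearMap.funLeft_apply]
    ring

theorem one_sub_ne : (1 - gen 1 : Sh) ≠ 0 := fun h => by
  have h1 := congrArg (fun u => shLift rels_rep u (fun _ => 1) 0) h
  simp [shLift_gen] at h1

/-- `g` as a unit. -/
noncomputable def uu : Shˣ := ⟨gen 2, gen 3, rels.gh, rels.hg⟩

theorem s_uu (k : ℤ) : Commute (gen 1) ((uu ^ k : Shˣ) : Sh) :=
  Commute.units_zpow_right (u := uu) rels.sg k

theorem x_uu (k : ℤ) : gen 0 * (uu ^ k : Shˣ) =
    (uu ^ k : Shˣ) * gen 0 - (k : ℂ) • ((1 - gen 1) * (uu ^ k : Shˣ)) := by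
  have hc : ∀ k : ℤ, ((uu ^ k : Shˣ) : Sh) * (1 - gen 1) = (1 - gen 1) * (uu ^ k : Shˣ) :=
    fun k => ((Commute.one_left _).sub_left (s_uu k)).eq.symm
  induction k using Int.induction_on with
  | zero => simp
  | succ k ih =>
    have h : gen 0 * gen 2 = gen 2 * gen 0 - (1 - gen 1) * gen 2 := by
      rw [rels.gx, add_sub_cancel_right]
    rw [zpow_add_one, Units.val_mul, ← mul_assoc, ih, show (uu : Sh) = gen 2 from rfl, sub_mul,
      mul_assoc, h, mul_sub, ← mul_assoc _ (1 - gen 1), hc]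
    push_cast
    simp only [add_smul, one_smul, smul_mul_assoc, mul_assoc]
    abel
  | pred k ih =>
    rw [zpow_sub_one, Units.val_mul, ← mul_assoc, ih, show ((uu⁻¹ : Shˣ) : Sh) = gen 3 from rfl,
      sub_mul, mul_assoc, rels.xh, mul_add, ← mul_assoc _ (1 - gen 1), hc]
    push_cast
    simp only [sub_smul, one_smul, smul_mul_assoc, mul_assoc]
    abel

theorem seminorm_sh (p : Seminorm ℂ Sh) (hp : ∀ a b, p (a * b) ≤ p a * p b) :
    p (1 - gen 1) = 0 := by
  obtain ⟨N, hN⟩ := exists_nat_gt (p (gen 0))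
  obtain ⟨w, hw⟩ : ∃ w : Sh, w = (1 - gen 1) * (uu ^ (N : ℤ) : Shˣ) := ⟨_, rfl⟩
  have he : (1 - gen 1 : Sh) * (1 - gen 1) = (2 : ℂ) • (1 - gen 1) := by
    rw [mul_sub, sub_mul, sub_mul, rels.ss, two_smul]
    noncomm_ring
  have hx : gen 0 * (1 - gen 1) = (1 - gen 1) * gen 0 := by
    rw [mul_sub, sub_mul, rels.sx, mul_one, one_mul]
  have h1 : w * gen 0 - gen 0 * w = (2 * N : ℂ) • w := by
    rw [hw, ← mul_assoc, hx, mul_assoc _ (gen 0), x_uu, mul_sub (1 - gen 1), mul_smul_comm,
      ← mul_assoc, ← mul_assoc, he, sub_sub_cancel, smul_mul_assoc, smul_smul, mul_comm (2 : ℂ)]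
    simp
  have h2 := map_sub_le_add p (w * gen 0) (gen 0 * w)
  rw [h1, map_smul_eq_mul] at h2
  have h3 : ‖(2 * N : ℂ)‖ = 2 * N := by simp
  have h4 := hp w (gen 0)
  have h5 := hp (gen 0) w
  have h6 : p w = 0 := by nlinarith [apply_nonneg p w]
  have h7 := hp w ((uu ^ (N : ℤ))⁻¹ : Shˣ)
  rw [h6, zero_mul, hw, Units.mul_inv_cancel_right] at h7
  exact le_antisymm h7 (apply_nonneg p _)

/-- The monomials. -/
noncomputable def mon (i : ℕ) (k : ℤ) (j : ℕ) : Sh := gen 1 ^ i * (uu ^ k : Shˣ) * gen 0 ^ j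

open Classical in
/-- The monomials of size at most `n`. -/
noncomputable def mons (n : ℕ) : Finset Sh :=
  (Finset.range 2 ×ˢ Finset.Icc (-(n : ℤ)) n ×ˢ Finset.range (n + 1)).image
    fun t => mon t.1 t.2.1 t.2.2

theorem mon_mem {n : ℕ} (i : ℕ) {k : ℤ} {j : ℕ} (h1 : -(n : ℤ) ≤ k) (h2 : k ≤ n) (h3 : j ≤ n) :
    mon i k j ∈ Submodule.span ℂ (mons n : Set Sh) := by
  have h : mon i k j = mon (i % 2) k j := by
    unfold mon
    rw [pow_eq_pow_mod i ((pow_two _).trans rels.ss)]
  refine Submodule.subset_span ?_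
  simp only [mons, Finset.coe_image, Set.mem_image, Finset.mem_coe, Finset.mem_product,
    Finset.mem_range, Finset.mem_Icc]
  exact ⟨(i % 2, k, j), ⟨Nat.mod_lt _ two_pos, ⟨h1, h2⟩, Nat.lt_succ_of_le h3⟩, h.symm⟩

/-- The generating subspace. -/
noncomputable def VV : Submodule ℂ Sh := Submodule.span ℂ (insert 1 (Set.range gen))

theorem VV_pow (n : ℕ) : VV ^ n ≤ Submodule.span ℂ (mons n : Set Sh) := by
  induction n with
  | zero =>
    rw [pow_zero, Submodule.one_le]
    simpa [mon] using mon_mem (n := 0) 0 (k := 0) (j := 0) (by simp) (by simp) le_rfl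
  | succ n ih =>
    rw [pow_succ']
    refine (mul_le_mul_right ih _).trans ?_
    rw [VV, Submodule.span_mul_span, Submodule.span_le]
    rintro _ ⟨a, ha, b, hb, rfl⟩
    simp only [mons, Finset.coe_image, Set.mem_image, Finset.mem_coe, Finset.mem_product,
      Finset.mem_range, Finset.mem_Icc] at hb
    obtain ⟨⟨i, k, j⟩, ⟨-, ⟨h1, h2⟩, h3⟩, rfl⟩ := hb
    dsimp only at h1 h2 h3 ⊢
    have e1 : ∀ i k j, gen 1 * mon i k j = mon (i + 1) k j := fun i k j => by
      simp only [mon, pow_succ', mul_assoc]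
    have e2 : ∀ l : ℤ, (uu ^ l : Shˣ) * mon i k j = mon i (l + k) j := fun l => by
      simp only [mon, zpow_add, Units.val_mul, ← mul_assoc, ((s_uu l).pow_left i).eq]
    have e3 : gen 0 * mon i k j =
        mon i k (j + 1) - (k : ℂ) • (mon i k j - mon (i + 1) k j) := by
      have hc : gen 0 * gen 1 ^ i = gen 1 ^ i * gen 0 := (Commute.pow_left rels.sx i).eq.symm
      simp only [mon]
      rw [← mul_assoc, ← mul_assoc, hc, mul_assoc _ (gen 0), x_uu, pow_succ' (gen 0), pow_succ]
      simp only [mul_sub, sub_mul, mul_smul_comm, smul_mul_assoc, mul_assoc, one_mul]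
    have f0 : gen 0 * mon i k j ∈ Submodule.span ℂ (mons (n + 1) : Set Sh) := by
      rw [e3]
      exact sub_mem (mon_mem i (by omega) (by omega) (by omega)) (Submodule.smul_mem _ _
        (sub_mem (mon_mem i (by omega) (by omega) (by omega))
          (mon_mem _ (by omega) (by omega) (by omega))))
    have f1 : gen 1 * mon i k j ∈ Submodule.span ℂ (mons (n + 1) : Set Sh) := by
      rw [e1]
      exact mon_mem _ (by omega) (by omega) (by omega)
    have f2 : gen 2 * mon i k j ∈ Submodule.span ℂ (mons (n + 1) : Set Sh) := by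
      rw [show gen 2 = ((uu ^ (1 : ℤ) : Shˣ) : Sh) by rw [zpow_one]; rfl, e2]
      exact mon_mem _ (by omega) (by omega) (by omega)
    have f3 : gen 3 * mon i k j ∈ Submodule.span ℂ (mons (n + 1) : Set Sh) := by
      rw [show gen 3 = ((uu ^ (-1 : ℤ) : Shˣ) : Sh) by rw [zpow_neg_one]; rfl, e2]
      exact mon_mem _ (by omega) (by omega) (by omega)
    rcases ha with rfl | ⟨l, rfl⟩
    · rw [one_mul]
      exact mon_mem i (by omega) (by omega) (by omega)
    · fin_cases l
      exacts [f0, f1, f2, f3]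

theorem rank_VV (n : ℕ) : Module.rank ℂ ↥(VV ^ n) ≤ (4 * (n + 1) ^ 2 : ℕ) := by
  classical
  refine (Submodule.rank_mono (VV_pow n)).trans ((rank_span_finset_le _).trans ?_)
  refine Nat.cast_le.2 (Finset.card_image_le.trans ?_)
  simp only [Finset.card_product, Finset.card_range, Int.card_Icc]
  have : ((n : ℤ) + 1 - -(n : ℤ)).toNat = 2 * n + 1 := by omega
  rw [this]
  nlinarith

theorem adjoin_VV : Algebra.adjoin ℂ (VV : Set Sh) = ⊤ := by
  refine eq_top_iff.2 fun u _ => ?_
  induction u using sh_induction with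
  | hc c => exact algebraMap_mem _ c
  | hg i => exact Algebra.subset_adjoin (Submodule.subset_span (Or.inr ⟨i, rfl⟩))
  | hm u v h1 h2 => exact mul_mem (h1 trivial) (h2 trivial)
  | ha u v h1 h2 => exact add_mem (h1 trivial) (h2 trivial)

end Pool.Agent.Lib.MP_f83094_an
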