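import Pool.Agent.Lib.MP_f83094_an.Noeth

/-!
The Hopf algebra generated by a central grouplike `s` of order two, a grouplike `g` and a skew
primitive `x` with `g x = x g + (1 - s) g`.
-/

set_option autoImplicit false

namespace Pool.Agent.Lib.MP_f83094_an

open scoped TensorProduct

/-- The defining relations, for four elements `v 0 = x`, `v 1 = s`, `v 2 = g`, `v 3 = g⁻¹`. -/
structure Rels {B : Type} [Ring B] (v : Fin 4 → B) : Prop where
  ss : v 1 * v 1 = 1
  gh : v 2 * v 3 = 1
  hg : v 3 * v 2 = 1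
  sg : v 1 * v 2 = v 2 * v 1
  sx : v 1 * v 0 = v 0 * v 1
  gx : v 2 * v 0 = v 0 * v 2 + (1 - v 1) * v 2

open FreeAlgebra in
/-- The relations in the free algebra. -/
inductive Rel : FreeAlgebra ℂ (Fin 4) → FreeAlgebra ℂ (Fin 4) → Prop
  | ss : Rel (ι ℂ 1 * ι ℂ 1) 1
  | gh : Rel (ι ℂ 2 * ι ℂ 3) 1
  | hg : Rel (ι ℂ 3 * ι ℂ 2) 1
  | sg : Rel (ι ℂ 1 * ι ℂ 2) (ι ℂ 2 * ι ℂ 1)
  | sx : Rel (ι ℂ 1 * ι ℂ 0) (ι ℂ 0 * ι ℂ 1)
  | gx : Rel (ι ℂ 2 * ι ℂ 0) (ι ℂ 0 * ι ℂ 2 + (1 - ι ℂ 1) * ι ℂ 2)

/-- The algebra. -/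
def Sh : Type := RingQuot Rel

noncomputable instance : Ring Sh := inferInstanceAs (Ring (RingQuot Rel))

noncomputable instance : Algebra ℂ Sh := inferInstanceAs (Algebra ℂ (RingQuot Rel))

/-- The quotient map. -/
noncomputable def shMk : FreeAlgebra ℂ (Fin 4) →ₐ[ℂ] Sh := RingQuot.mkAlgHom ℂ Rel

theorem shMk_rel {a b : FreeAlgebra ℂ (Fin 4)} (h : Rel a b) : shMk a = shMk b :=
  RingQuot.mkAlgHom_rel ℂ h

theorem shMk_surj : Function.Surjective shMk := RingQuot.mkAlgHom_surjective ℂ Rel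

/-- The generators. -/
noncomputable def gen (i : Fin 4) : Sh := shMk (FreeAlgebra.ι ℂ i)

theorem rels : Rels gen where
  ss := by simpa [gen] using shMk_rel Rel.ss
  gh := by simpa [gen] using shMk_rel Rel.gh
  hg := by simpa [gen] using shMk_rel Rel.hg
  sg := by simpa [gen] using shMk_rel Rel.sg
  sx := by simpa [gen] using shMk_rel Rel.sx
  gx := by simpa [gen] using shMk_rel Rel.gx

/-- The universal property. -/
noncomputable def shLift {B : Type} [Ring B] [Algebra ℂ B] {v : Fin 4 → B} (h : Rels v) :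
    Sh →ₐ[ℂ] B :=
  RingQuot.liftAlgHom ℂ ⟨FreeAlgebra.lift ℂ v, fun _ _ r => by
    cases r <;> simp [h.ss, h.gh, h.hg, h.sg, h.sx, h.gx]⟩

theorem shLift_gen {B : Type} [Ring B] [Algebra ℂ B] {v : Fin 4 → B} (h : Rels v) (i : Fin 4) :
    shLift h (gen i) = v i :=
  (RingQuot.liftAlgHom_mkAlgHom_apply ℂ _ _ _).trans (FreeAlgebra.lift_ι_apply _ _)

theorem sh_induction {P : Sh → Prop} (hc : ∀ c, P (algebraMap ℂ Sh c)) (hg : ∀ i, P (gen i))
    (hm : ∀ u v, P u → P v → P (u * v)) (ha : ∀ u v, P u → P v → P (u + v)) (u : Sh) : P u := by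
  obtain ⟨w, rfl⟩ := shMk_surj u
  induction w using FreeAlgebra.induction with
  | grade0 c => rw [AlgHom.commutes]; exact hc c
  | grade1 i => exact hg i
  | mul a b h1 h2 => rw [map_mul]; exact hm _ _ h1 h2
  | add a b h1 h2 => rw [map_add]; exact ha _ _ h1 h2

theorem sh_ext {B : Type} [Ring B] [Algebra ℂ B] {f₁ f₂ : Sh →ₐ[ℂ] B}
    (h : ∀ i, f₁ (gen i) = f₂ (gen i)) : f₁ = f₂ :=
  AlgHom.ext fun u => by
    induction u using sh_induction with
    | hc c => rw [f₁.commutes, f₂.commutes]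
    | hg i => exact h i
    | hm u v h1 h2 => rw [map_mul, map_mul, h1, h2]
    | ha u v h1 h2 => rw [map_add, map_add, h1, h2]

theorem Rels.sh {B : Type} [Ring B] {v : Fin 4 → B} (h : Rels v) : v 1 * v 3 = v 3 * v 1 := by
  calc v 1 * v 3 = (v 3 * v 2) * v 1 * v 3 := by rw [h.hg, one_mul]
    _ = v 3 * (v 1 * v 2) * v 3 := by rw [h.sg, mul_assoc (v 3)]
    _ = v 3 * v 1 * (v 2 * v 3) := by simp only [mul_assoc]
    _ = v 3 * v 1 := by rw [h.gh, mul_one]

theorem Rels.xh {B : Type} [Ring B] {v : Fin 4 → B} (h : Rels v) :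
    v 0 * v 3 = v 3 * v 0 + (1 - v 1) * v 3 := by
  calc v 0 * v 3 = v 3 * (v 2 * v 0) * v 3 := by rw [← mul_assoc, h.hg, one_mul]
    _ = v 3 * v 0 * (v 2 * v 3) + v 3 * (1 - v 1) * (v 2 * v 3) := by
      rw [h.gx]
      noncomm_ring
    _ = _ := by rw [h.gh, mul_one, mul_one, mul_sub, sub_mul, ← h.sh, mul_one, one_mul]

theorem rels_comul : Rels (B := Sh ⊗[ℂ] Sh)
    ![gen 0 ⊗ₜ 1 + gen 1 ⊗ₜ gen 0, gen 1 ⊗ₜ gen 1, gen 2 ⊗ₜ gen 2, gen 3 ⊗ₜ gen 3] where
  ss := by simp [rels.ss, Algebra.TensorProduct.one_def]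
  gh := by simp [rels.gh, Algebra.TensorProduct.one_def]
  hg := by simp [rels.hg, Algebra.TensorProduct.one_def]
  sg := by simp [rels.sg]
  sx := by simp [mul_add, add_mul, rels.sx]
  gx := by
    simp only [Matrix.cons_val, mul_add, add_mul, sub_mul, Algebra.TensorProduct.tmul_mul_tmul,
      one_mul, mul_one, rels.gx, ← rels.sg, TensorProduct.add_tmul, TensorProduct.tmul_add,
      TensorProduct.sub_tmul, TensorProduct.tmul_sub]
    abel

theorem rels_counit : Rels (B := ℂ) ![0, 1, 1, 1] := by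
  constructor <;> simp

theorem rels_anti : Rels (B := Shᵐᵒᵖ)
    ![.op (-(gen 1 * gen 0)), .op (gen 1), .op (gen 3), .op (gen 2)] where
  ss := by simp [← MulOpposite.op_mul, rels.ss]
  gh := by simp [← MulOpposite.op_mul, rels.gh]
  hg := by simp [← MulOpposite.op_mul, rels.hg]
  sg := by simp [← MulOpposite.op_mul, rels.sh]
  sx := by simp [← MulOpposite.op_mul, mul_assoc, ← rels.sx]
  gx := by
    refine MulOpposite.unop_injective ?_
    simp only [Matrix.cons_val, MulOpposite.unop_mul, MulOpposite.unop_add, MulOpposite.unop_sub,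
      MulOpposite.unop_op, MulOpposite.unop_one]
    calc -(gen 1 * gen 0) * gen 3 = -(gen 1 * (gen 0 * gen 3)) := by noncomm_ring
      _ = -(gen 1 * gen 3 * gen 0) - gen 1 * gen 3 + gen 1 * gen 1 * gen 3 := by
        rw [rels.xh]
        noncomm_ring
      _ = _ := by
        rw [rels.ss, rels.sh]
        noncomm_ring

/-- The bialgebra structure. -/
noncomputable abbrev shBialg : Bialgebra ℂ Sh :=
  Bialgebra.ofAlgHom (shLift rels_comul) (shLift rels_counit)
    (by
      refine sh_ext fun i => ?_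
      fin_cases i <;>
        simp [shLift_gen, Algebra.TensorProduct.one_def, TensorProduct.add_tmul,
          TensorProduct.tmul_add, add_assoc])
    (by
      refine sh_ext fun i => ?_
      fin_cases i <;> simp [shLift_gen])
    (by
      refine sh_ext fun i => ?_
      fin_cases i <;> simp [shLift_gen])

/-- The antipode. -/
noncomputable def anti : Sh →ₗ[ℂ] Sh :=
  (MulOpposite.opLinearEquiv ℂ).symm.toLinearMap ∘ₗ (shLift rels_anti).toLinearMap

theorem anti_apply (u : Sh) : anti u = (shLift rels_anti u).unop := rfl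

theorem anti_mul (u v : Sh) : anti (u * v) = anti v * anti u := by
  simp only [anti_apply, map_mul, MulOpposite.unop_mul]

theorem anti_one : anti 1 = 1 := by simp only [anti_apply, map_one, MulOpposite.unop_one]

theorem anti_alg (c : ℂ) : anti (algebraMap ℂ Sh c) = algebraMap ℂ Sh c := by
  rw [Algebra.algebraMap_eq_smul_one, map_smul, anti_one]

theorem anti0 : anti (gen 0) = -(gen 1 * gen 0) := by simp [anti_apply, shLift_gen]
theorem anti1 : anti (gen 1) = gen 1 := by simp [anti_apply, shLift_gen]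
theorem anti2 : anti (gen 2) = gen 3 := by simp [anti_apply, shLift_gen]
theorem anti3 : anti (gen 3) = gen 2 := by simp [anti_apply, shLift_gen]

theorem rT_mul (t u : Sh ⊗[ℂ] Sh) (c : ℂ)
    (h : LinearMap.mul' ℂ Sh (anti.rTensor Sh t) = algebraMap ℂ Sh c) :
    LinearMap.mul' ℂ Sh (anti.rTensor Sh (t * u)) =
      algebraMap ℂ Sh c * LinearMap.mul' ℂ Sh (anti.rTensor Sh u) := by
  induction u using TensorProduct.induction_on with
  | zero => simp only [mul_zero, map_zero]
  | add a b ha hb => simp only [mul_add, map_add, ha, hb]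
  | tmul a b =>
    have key : ∀ w : Sh ⊗[ℂ] Sh, LinearMap.mul' ℂ Sh (anti.rTensor Sh (w * a ⊗ₜ b)) =
        anti a * LinearMap.mul' ℂ Sh (anti.rTensor Sh w) * b := fun w => by
      induction w using TensorProduct.induction_on with
      | zero => simp only [zero_mul, mul_zero, map_zero]
      | add p q hp hq => simp only [mul_add, add_mul, map_add, hp, hq]
      | tmul p q =>
        simp only [Algebra.TensorProduct.tmul_mul_tmul, LinearMap.rTensor_tmul,
          LinearMap.mul'_apply, anti_mul, mul_assoc]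
    rw [key, h, LinearMap.rTensor_tmul, LinearMap.mul'_apply, ← Algebra.commutes, mul_assoc]

theorem lT_mul (t u : Sh ⊗[ℂ] Sh) (c : ℂ)
    (h : LinearMap.mul' ℂ Sh (anti.lTensor Sh u) = algebraMap ℂ Sh c) :
    LinearMap.mul' ℂ Sh (anti.lTensor Sh (t * u)) =
      LinearMap.mul' ℂ Sh (anti.lTensor Sh t) * algebraMap ℂ Sh c := by
  induction t using TensorProduct.induction_on with
  | zero => simp only [zero_mul, map_zero]
  | add a b ha hb => simp only [add_mul, map_add, ha, hb]
  | tmul a b =>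
    have key : ∀ w : Sh ⊗[ℂ] Sh, LinearMap.mul' ℂ Sh (anti.lTensor Sh (a ⊗ₜ b * w)) =
        a * LinearMap.mul' ℂ Sh (anti.lTensor Sh w) * anti b := fun w => by
      induction w using TensorProduct.induction_on with
      | zero => simp only [zero_mul, mul_zero, map_zero]
      | add p q hp hq => simp only [mul_add, add_mul, map_add, hp, hq]
      | tmul p q =>
        simp only [Algebra.TensorProduct.tmul_mul_tmul, LinearMap.lTensor_tmul,
          LinearMap.mul'_apply, anti_mul, mul_assoc]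
    rw [key, h, LinearMap.lTensor_tmul, LinearMap.mul'_apply, mul_assoc, Algebra.commutes,
      mul_assoc]

theorem anti_r (u : Sh) : LinearMap.mul' ℂ Sh (anti.rTensor Sh (shLift rels_comul u)) =
    algebraMap ℂ Sh (shLift rels_counit u) := by
  induction u using sh_induction with
  | hc c => simp [anti_alg]
  | hg i => fin_cases i <;> simp [shLift_gen, anti0, anti1, anti2, anti3, rels.ss, rels.gh, rels.hg]
  | hm u v h1 h2 => rw [map_mul, rT_mul _ _ _ h1, h2, map_mul, map_mul]
  | ha u v h1 h2 => simp only [map_add, h1, h2]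

theorem anti_l (u : Sh) : LinearMap.mul' ℂ Sh (anti.lTensor Sh (shLift rels_comul u)) =
    algebraMap ℂ Sh (shLift rels_counit u) := by
  induction u using sh_induction with
  | hc c => simp [anti_one]
  | hg i =>
    fin_cases i <;> simp [shLift_gen, anti0, anti1, anti2, anti3, anti_one, ← mul_assoc, rels.ss,
      rels.gh, rels.hg]
  | hm u v h1 h2 => rw [map_mul, lT_mul _ _ _ h2, h1, map_mul, map_mul]
  | ha u v h1 h2 => simp only [map_add, h1, h2]

/-- The Hopf algebra structure. -/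
noncomputable abbrev shHopf : HopfAlgebra ℂ Sh :=
  letI := shBialg
  { antipode := anti
    mul_antipode_rTensor_comul := LinearMap.ext anti_r
    mul_antipode_lTensor_comul := LinearMap.ext anti_l }

end Pool.Agent.Lib.MP_f83094_an
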