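import Mathlib
import Pool.Agent.Lib.MP_f83094_an.Hopf

/-!
Counterexample: `H = U(W)`, the universal enveloping algebra of the Witt algebra
`W = Der ℂ[X]` of polynomial vector fields on the line, with its standard Hopf structure.
It is generated as an algebra by `d/dX` and `X^3 d/dX`.  Put `e n = X^n d/dX`.  Since
`[e 1, e (n+1)] = n • e (n+1)`, a submultiplicative seminorm `p` kills `e (n+1)` as soon as
`n > 2 p (e 1)`, and `[e 0, e (n+1)] = (n+1) • e n` brings this down to `p (e 0) = 0`.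
-/

set_option autoImplicit false

namespace Pool.Agent.Lib.MP_f83094_an.WittVariant

open Polynomial UniversalEnvelopingAlgebra Pool.Agent.Lib.MP_f83094_an

attribute [local instance 100] LieRing.ofAssociativeRing

/-- The Witt algebra of polynomial vector fields on the affine line. -/
abbrev W : Type := Derivation ℂ ℂ[X] ℂ[X]

/-- The vector field `X^n d/dX`. -/
noncomputable def e (n : ℕ) : W := mkDerivation ℂ (X ^ n : ℂ[X])

theorem e_apply (n : ℕ) (f : ℂ[X]) : e n f = derivative f * X ^ n := by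
  simp [e, mkDerivation_apply]

theorem lie_e (m n : ℕ) : ⁅e m, e n⁆ X =
    C (n : ℂ) * X ^ (n - 1) * X ^ m - C (m : ℂ) * X ^ (m - 1) * X ^ n := by
  simp only [Derivation.commutator_apply, e_apply, derivative_X, one_mul, derivative_X_pow]

theorem smul_e (c : ℂ) (n : ℕ) : (c • e n) X = C c * X ^ n := by
  rw [Derivation.smul_apply, e_apply, derivative_X, one_mul, smul_eq_C_mul]

theorem lie_e_zero (n : ℕ) : ⁅e 0, e (n + 1)⁆ = ((n : ℂ) + 1) • e n := by
  apply derivation_ext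
  rw [lie_e, smul_e, Nat.add_sub_cancel]
  simp only [Nat.cast_add, Nat.cast_one, Nat.cast_zero, map_zero]
  ring

theorem lie_e_one (n : ℕ) : ⁅e 1, e (n + 1)⁆ = (n : ℂ) • e (n + 1) := by
  apply derivation_ext
  rw [lie_e, smul_e, Nat.add_sub_cancel]
  simp only [Nat.cast_add, Nat.cast_one, map_add, map_one]
  ring

theorem lie_e_two (n : ℕ) : ⁅e 2, e (n + 3)⁆ = ((n : ℂ) + 1) • e (n + 4) := by
  apply derivation_ext
  have h : n + 3 - 1 = n + 2 := by omega
  rw [lie_e, smul_e, h]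
  simp only [Nat.cast_add, Nat.cast_ofNat, map_add, map_one, map_ofNat]
  ring

/-- The universal enveloping algebra of the Witt algebra. -/
abbrev H : Type := UniversalEnvelopingAlgebra ℂ W

theorem ι_lie (x y : W) : ι ℂ ⁅x, y⁆ = (ι ℂ x * ι ℂ y - ι ℂ y * ι ℂ x : H) := by
  rw [LieHom.map_lie, LieRing.of_associative_ring_bracket]

theorem mem_of_lie {S : Subalgebra ℂ H} {x y z : W} {c : ℂ} (hc : c ≠ 0) (h : ⁅x, y⁆ = c • z)
    (hx : ι ℂ x ∈ S) (hy : ι ℂ y ∈ S) : ι ℂ z ∈ S := by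
  have h1 : (ι ℂ z : H) = c⁻¹ • ι ℂ ⁅x, y⁆ := by
    rw [h, map_smul, smul_smul, inv_mul_cancel₀ hc, one_smul]
  rw [h1, ι_lie]
  exact S.smul_mem (S.sub_mem (S.mul_mem hx hy) (S.mul_mem hy hx)) _

theorem natCast_add_one_ne (n : ℕ) : (n : ℂ) + 1 ≠ 0 := by
  exact_mod_cast Nat.succ_ne_zero n

theorem finiteType : Algebra.FiniteType ℂ H := by
  classical
  refine ⟨⟨{ι ℂ (e 0), ι ℂ (e 3)}, ?_⟩⟩
  set S : Subalgebra ℂ H := Algebra.adjoin ℂ (({ι ℂ (e 0), ι ℂ (e 3)} : Finset H) : Set H) with hS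
  have h0 : ι ℂ (e 0) ∈ S := Algebra.subset_adjoin (by simp only [Finset.coe_insert,
    Finset.coe_singleton, Set.mem_insert_iff, true_or])
  have h3 : ι ℂ (e 3) ∈ S := Algebra.subset_adjoin (by simp only [Finset.coe_insert,
    Finset.coe_singleton, Set.mem_insert_iff, Set.mem_singleton_iff, or_true])
  have h2 : ι ℂ (e 2) ∈ S := mem_of_lie (natCast_add_one_ne 2) (lie_e_zero 2) h0 h3
  have h1 : ι ℂ (e 1) ∈ S := mem_of_lie (natCast_add_one_ne 1) (lie_e_zero 1) h0 h2
  have h4 : ∀ n, ι ℂ (e (n + 3)) ∈ S := by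
    intro n
    induction n with
    | zero => exact h3
    | succ n ih => exact mem_of_lie (natCast_add_one_ne n) (lie_e_two n) h2 ih
  have hall : ∀ n, ι ℂ (e n) ∈ S := by
    intro n
    match n with
    | 0 => exact h0
    | 1 => exact h1
    | 2 => exact h2
    | n + 3 => exact h4 n
  have hpoly : ∀ f : ℂ[X], ι ℂ (mkDerivation ℂ f : W) ∈ S := by
    intro f
    induction f using Polynomial.induction_on' with
    | add p q hp hq => rw [map_add, map_add]; exact S.add_mem hp hq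
    | monomial n a =>
      rw [← C_mul_X_pow_eq_monomial, ← smul_eq_C_mul, map_smul, map_smul]
      exact S.smul_mem (hall n) a
  rw [eq_top_iff, ← adjoin_range_ι ℂ W]
  apply Algebra.adjoin_le
  rintro _ ⟨D, rfl⟩
  have hD : D = mkDerivation ℂ (D X) := by
    apply derivation_ext
    rw [mkDerivation_X]
  rw [hD]
  exact hpoly _

/-- The tautological representation of the Witt algebra on `ℂ[X]`. -/
noncomputable def rep : W →ₗ⁅ℂ⁆ Module.End ℂ ℂ[X] := LieModule.toEnd ℂ W ℂ[X]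

theorem ι_e_zero_ne : (ι ℂ (e 0) : H) ≠ 0 := by
  intro h
  have h1 := lift_ι_apply ℂ rep (e 0)
  rw [h, map_zero] at h1
  have h2 : rep (e 0) X = 1 := by
    simp [rep, e_apply]
  rw [← h1] at h2
  simp at h2

theorem seminorm_lie_le (p : Seminorm ℂ H) (hp : ∀ a b, p (a * b) ≤ p a * p b) (x y : W) :
    p (ι ℂ ⁅x, y⁆) ≤ 2 * p (ι ℂ x) * p (ι ℂ y) := by
  rw [ι_lie]
  have h1 := hp (ι ℂ x) (ι ℂ y)
  have h2 := hp (ι ℂ y) (ι ℂ x)
  have h3 := map_sub_le_add p (ι ℂ x * ι ℂ y) (ι ℂ y * ι ℂ x)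
  linarith

theorem seminorm_e (p : Seminorm ℂ H) (hp : ∀ a b, p (a * b) ≤ p a * p b) :
    p (ι ℂ (e 0)) = 0 := by
  obtain ⟨N, hN⟩ := exists_nat_gt (2 * p (ι ℂ (e 1)))
  have hbig : p (ι ℂ (e (N + 1))) = 0 := by
    have h1 := seminorm_lie_le p hp (e 1) (e (N + 1))
    rw [lie_e_one, map_smul, map_smul_eq_mul, Complex.norm_natCast] at h1
    have h2 : 0 ≤ p (ι ℂ (e (N + 1))) := apply_nonneg p _
    nlinarith
  have hdown : ∀ n, p (ι ℂ (e (n + 1))) = 0 → p (ι ℂ (e n)) = 0 := by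
    intro n hn
    have h1 := seminorm_lie_le p hp (e 0) (e (n + 1))
    rw [lie_e_zero, map_smul, map_smul_eq_mul, hn, mul_zero] at h1
    have h2 : 0 ≤ p (ι ℂ (e n)) := apply_nonneg p _
    have h3 : 0 < ‖(n : ℂ) + 1‖ := norm_pos_iff.mpr (natCast_add_one_ne n)
    nlinarith
  have hall : ∀ n, p (ι ℂ (e n)) = 0 → p (ι ℂ (e 0)) = 0 := by
    intro n
    induction n with
    | zero => exact id
    | succ n ih => exact fun h => ih (hdown n h)
  exact hall _ hbig

/-- There is a finitely generated complex Hopf algebra with a nonzero element on which every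
submultiplicative seminorm vanishes. -/
theorem result :
    ∃ (H : Type) (_ : Ring H) (_ : HopfAlgebra ℂ H), Algebra.FiniteType ℂ H ∧
      ∃ h : H, h ≠ 0 ∧
        ∀ p : Seminorm ℂ H, (∀ a b : H, p (a * b) ≤ p a * p b) → p h = 0 :=
  ⟨H, inferInstance, hopf ℂ W, finiteType, ι ℂ (e 0), ι_e_zero_ne, seminorm_e⟩

end Pool.Agent.Lib.MP_f83094_an.WittVariant
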